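import Pool.Agent.SpecRad.Forward

/-!
# MP_6989a0_an, Q2: surjective preservers of the spectral radius of sums
-/

namespace Pool.Agent.Results.MP_6989a0_an.Sums

open Pool.Agent.SpecRad

/-- For arbitrary complex Banach spaces `X`, `Y` and an arbitrary map `φ : B(X) → B(Y)`: `φ` is onto
and `r(φ(T) + φ(S)) = r(T + S)` for all `T, S` if and only if `φ(T) = α A T A⁻¹` for all `T`, or
(only for reflexive `X`) `φ(T) = α A T* A⁻¹` for all `T`, with `|α| = 1` and `A` a linear or
conjugate linear homeomorphism from `X`, respectively from the dual `X*`, onto `Y`. -/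
theorem result {X Y : Type*} [NormedAddCommGroup X] [NormedSpace ℂ X] [CompleteSpace X]
    [NormedAddCommGroup Y] [NormedSpace ℂ Y] [CompleteSpace Y]
    (φ : (X →L[ℂ] X) → (Y →L[ℂ] Y)) :
    (Function.Surjective φ ∧
        ∀ T S, spectralRadius ℂ (φ T + φ S) = spectralRadius ℂ (T + S)) ↔
      ∃ α : ℂ, ‖α‖ = 1 ∧ StdForm φ α 0 :=
  (main_theorem φ).2

end Pool.Agent.Results.MP_6989a0_an.Sums
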